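import Pool.Agent.helper88.PF.Spec

set_option autoImplicit false
set_option linter.unusedVariables false

namespace PF

noncomputable section

/-! ### computable functions of natural numbers -/

theorem DPV_mul {Y : Type} [Primcodable Y] {f g : Y → ℕ} (hf : Computable f) (hg : Computable g) :
    Computable (fun y => f y * g y) := Primrec.nat_mul.to_comp.comp hf hg

theorem DPV_add {Y : Type} [Primcodable Y] {f g : Y → ℕ} (hf : Computable f) (hg : Computable g) :
    Computable (fun y => f y + g y) := Primrec.nat_add.to_comp.comp hf hg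

theorem DPV_sub {Y : Type} [Primcodable Y] {f g : Y → ℕ} (hf : Computable f) (hg : Computable g) :
    Computable (fun y => f y - g y) := Primrec.nat_sub.to_comp.comp hf hg

theorem DPV_div {Y : Type} [Primcodable Y] {f g : Y → ℕ} (hf : Computable f) (hg : Computable g) :
    Computable (fun y => f y / g y) := Primrec.nat_div.to_comp.comp hf hg

theorem DPV_mod {Y : Type} [Primcodable Y] {f g : Y → ℕ} (hf : Computable f) (hg : Computable g) :
    Computable (fun y => f y % g y) := Primrec.nat_mod.to_comp.comp hf hg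

theorem DPV_pow0 : Computable (fun n : ℕ => 2 ^ n) := by
  have hh : Computable₂ (fun (_ : ℕ) (p : ℕ × ℕ) => 2 * p.2) :=
    DPV_mul (Y := ℕ × (ℕ × ℕ)) (Computable.const 2) (Computable.snd.comp Computable.snd)
  have h := Computable.nat_rec (f := fun n : ℕ => n) (g := fun _ : ℕ => (1 : ℕ))
    (h := fun (_ : ℕ) (p : ℕ × ℕ) => 2 * p.2) Computable.id (Computable.const 1) hh
  refine h.of_eq (fun n => ?_)
  induction n with
  | zero => rfl
  | succ n ih =>
    change 2 * (Nat.rec (motive := fun _ => ℕ) 1 (fun y IH => 2 * IH) n) = 2 ^ (n + 1)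
    change (Nat.rec (motive := fun _ => ℕ) 1 (fun y IH => 2 * IH) n) = 2 ^ n at ih
    rw [ih, pow_succ, mul_comm]

theorem DPV_pow {Y : Type} [Primcodable Y] {f : Y → ℕ} (hf : Computable f) :
    Computable (fun y => 2 ^ f y) := DPV_pow0.comp hf

theorem DPV_tb {Y : Type} [Primcodable Y] {n i : Y → ℕ} (hn : Computable n) (hi : Computable i) :
    ComputablePred (fun y => tb (n y) (i y)) := by
  have h : ComputablePred (fun y => n y / 2 ^ i y % 2 = 1) :=
    cp_eq (DPV_mod (DPV_div hn (DPV_pow hi)) (Computable.const 2)) (Computable.const 1)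
  exact h

theorem DPV_imp {Y : Type} [Primcodable Y] {p q : Y → Prop} (hp : ComputablePred p) (hq : ComputablePred q) :
    ComputablePred (fun y => p y → q y) :=
  (cp_or (cp_not hp) hq).of_eq (fun y => by tauto)

theorem DPV_subN {Y : Type} [Primcodable Y] {u v : Y → ℕ} (hu : Computable u) (hv : Computable v) :
    ComputablePred (fun y => subN (u y) (v y)) := by
  have h : ComputablePred (fun y => ∀ i < u y, tb (u y) i → tb (v y) i) :=
    cp_ball (p := fun y i => tb (u y) i → tb (v y) i)
      (DPV_imp (DPV_tb (hu.comp Computable.fst) Computable.snd) (DPV_tb (hv.comp Computable.fst) Computable.snd)) hu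
  exact h

theorem DPV_ClN {Y : Type} [Primcodable Y] {a B w : Y → ℕ} {θ : Y → ℕ → ℕ → Prop} (ha : Computable a)
    (hB : Computable B) (hw : Computable w) (hθ : ComputablePred (fun z : Y × ℕ × ℕ => θ z.1 z.2.1 z.2.2)) :
    ComputablePred (fun y => ClN (a y) (B y) (w y) (θ y)) := by
  have h1 : ComputablePred (fun y => tb (w y) 0) := DPV_tb hw (Computable.const 0)
  have f1 : Computable (fun z : Y × ℕ => z.1) := Computable.fst
  have f2 : Computable (fun z : (Y × ℕ) × ℕ => z.1.1) := Computable.fst.comp Computable.fst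
  have f3 : Computable (fun z : ((Y × ℕ) × ℕ) × ℕ => z.1.1.1) := Computable.fst.comp (Computable.fst.comp Computable.fst)
  have h2 : ComputablePred (fun y => ∀ u < 2 ^ a y, ∀ u' < 2 ^ a y, ∀ v < 2 ^ B y, subN u u' →
      tb (w y) (u * 2 ^ B y + v) → tb (w y) (u' * 2 ^ B y + v)) := by
    refine cp_ball (p := fun y u => ∀ u' < 2 ^ a y, ∀ v < 2 ^ B y, subN u u' →
      tb (w y) (u * 2 ^ B y + v) → tb (w y) (u' * 2 ^ B y + v)) ?_ (DPV_pow ha)
    refine cp_ball (p := fun (z : Y × ℕ) u' => ∀ v < 2 ^ B z.1, subN z.2 u' →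
      tb (w z.1) (z.2 * 2 ^ B z.1 + v) → tb (w z.1) (u' * 2 ^ B z.1 + v)) ?_ (DPV_pow (ha.comp f1))
    refine cp_ball (p := fun (z : (Y × ℕ) × ℕ) v => subN z.1.2 z.2 →
      tb (w z.1.1) (z.1.2 * 2 ^ B z.1.1 + v) → tb (w z.1.1) (z.2 * 2 ^ B z.1.1 + v)) ?_ (DPV_pow (hB.comp f2))
    have g1 : Computable (fun z : ((Y × ℕ) × ℕ) × ℕ => z.1.1.2) :=
      Computable.snd.comp (Computable.fst.comp Computable.fst)
    have g2 : Computable (fun z : ((Y × ℕ) × ℕ) × ℕ => z.1.2) := Computable.snd.comp Computable.fst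
    have g3 : Computable (fun z : ((Y × ℕ) × ℕ) × ℕ => z.2) := Computable.snd
    exact DPV_imp (DPV_subN g1 g2) (DPV_imp
      (DPV_tb (hw.comp f3) (DPV_add (DPV_mul g1 (DPV_pow (hB.comp f3))) g3))
      (DPV_tb (hw.comp f3) (DPV_add (DPV_mul g2 (DPV_pow (hB.comp f3))) g3)))
  have h3 : ComputablePred (fun y => ∀ u < 2 ^ a y, ∀ v < 2 ^ B y, tb (w y) (u * 2 ^ B y + v) →
      ∃ v' < 2 ^ B y, subN v v' ∧ tb (w y) (u * 2 ^ B y + v') ∧ θ y u v') := by
    refine cp_ball (p := fun y u => ∀ v < 2 ^ B y, tb (w y) (u * 2 ^ B y + v) →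
      ∃ v' < 2 ^ B y, subN v v' ∧ tb (w y) (u * 2 ^ B y + v') ∧ θ y u v') ?_ (DPV_pow ha)
    refine cp_ball (p := fun (z : Y × ℕ) v => tb (w z.1) (z.2 * 2 ^ B z.1 + v) →
      ∃ v' < 2 ^ B z.1, subN v v' ∧ tb (w z.1) (z.2 * 2 ^ B z.1 + v') ∧ θ z.1 z.2 v') ?_ (DPV_pow (hB.comp f1))
    have g1 : Computable (fun z : (Y × ℕ) × ℕ => z.1.2) := Computable.snd.comp Computable.fst
    have g2 : Computable (fun z : (Y × ℕ) × ℕ => z.2) := Computable.snd
    refine DPV_imp (DPV_tb (hw.comp f2) (DPV_add (DPV_mul g1 (DPV_pow (hB.comp f2))) g2)) ?_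
    refine cp_bex (p := fun (z : (Y × ℕ) × ℕ) v' => subN z.2 v' ∧ tb (w z.1.1) (z.1.2 * 2 ^ B z.1.1 + v') ∧
      θ z.1.1 z.1.2 v') ?_ (DPV_pow (hB.comp f2))
    have k1 : Computable (fun z : ((Y × ℕ) × ℕ) × ℕ => z.1.1.2) :=
      Computable.snd.comp (Computable.fst.comp Computable.fst)
    have k2 : Computable (fun z : ((Y × ℕ) × ℕ) × ℕ => z.1.2) := Computable.snd.comp Computable.fst
    have k3 : Computable (fun z : ((Y × ℕ) × ℕ) × ℕ => z.2) := Computable.snd
    refine cp_and (DPV_subN k2 k3) (cp_and (DPV_tb (hw.comp f3) (DPV_add (DPV_mul k1 (DPV_pow (hB.comp f3))) k3)) ?_)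
    exact cp_comp (f := fun z : ((Y × ℕ) × ℕ) × ℕ => (z.1.1.1, z.1.1.2, z.2))
      (p := fun z : Y × ℕ × ℕ => θ z.1 z.2.1 z.2.2) (f3.pair (k1.pair k3)) hθ
  exact cp_and h1 (cp_and h2 h3)

/-! ### tables -/

/-- the table of the first `N` values -/
def DPV_tbl (f : ℕ → Bool) (N : ℕ) : List Bool :=
  Nat.rec (motive := fun _ => List Bool) [] (fun n L => L ++ [f n]) N

theorem DPV_len (f : ℕ → Bool) (N : ℕ) : (DPV_tbl f N).length = N := by
  induction N with
  | zero => rfl
  | succ n ih =>
    change (DPV_tbl f n ++ [f n]).length = n + 1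
    rw [List.length_append, ih]
    rfl

theorem DPV_get (f : ℕ → Bool) (N i : ℕ) (hi : i < N) : (DPV_tbl f N).getD i false = f i := by
  induction N with
  | zero => omega
  | succ n ih =>
    change (DPV_tbl f n ++ [f n]).getD i false = f i
    rcases Nat.lt_or_ge i n with h | h
    · rw [List.getD_append _ _ _ _ (by rw [DPV_len]; exact h)]
      exact ih h
    · have : i = n := by omega
      subst this
      rw [List.getD_append_right _ _ _ _ (by rw [DPV_len]), DPV_len, Nat.sub_self]
      rfl

theorem DPV_tblc {Y : Type} [Primcodable Y] {f : Y × ℕ → Bool} {N : Y → ℕ} (hf : Computable f) (hN : Computable N) :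
    Computable (fun y => DPV_tbl (fun i => f (y, i)) (N y)) := by
  have hh : Computable₂ (fun (y : Y) (p : ℕ × List Bool) => p.2 ++ [f (y, p.1)]) := by
    have h1 : Computable (fun z : Y × (ℕ × List Bool) => z.2.2) := Computable.snd.comp Computable.snd
    have h2 : Computable (fun z : Y × (ℕ × List Bool) => f (z.1, z.2.1)) :=
      hf.comp (Computable.fst.pair (Computable.fst.comp Computable.snd))
    exact Computable.list_concat.comp h1 h2
  exact Computable.nat_rec hN (Computable.const []) hh

/-! ### congruence -/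

theorem DPV_ClN_congr (a B w : ℕ) (θ θ' : ℕ → ℕ → Prop) (h : ∀ u < 2 ^ a, ∀ v < 2 ^ B, (θ u v ↔ θ' u v)) :
    ClN a B w θ ↔ ClN a B w θ' := by
  unfold ClN
  refine and_congr_right (fun _ => and_congr_right (fun _ => ?_))
  refine forall_congr' (fun u => forall_congr' (fun hu => forall_congr' (fun v => forall_congr' (fun hv =>
    forall_congr' (fun _ => ?_)))))
  refine exists_congr (fun v' => and_congr_right (fun hv' => and_congr_right (fun _ => and_congr_right (fun _ => ?_))))
  exact h u hu v' hv'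

theorem DPV_VN_congr (a : ℕ) (K : ℕ → Prop) : ∀ (q : List Bool) (B : ℕ) (Θ Θ' : ℕ → ℕ → Prop),
    (∀ c < 2 ^ (a + q.length), ∀ v < 2 ^ B, (Θ c v ↔ Θ' c v)) → (VN a K q B Θ ↔ VN a K q B Θ') := by
  intro q
  induction q with
  | nil =>
    intro B Θ Θ' h
    unfold VN
    refine exists_congr (fun w => and_congr_right (fun _ => ?_))
    refine DPV_ClN_congr a B w _ _ (fun u hu v hv => ?_)
    rw [h u hu v hv]
  | cons b q ih =>
    intro B Θ Θ' h
    rw [List.length_cons] at h
    cases b with
    | true =>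
      unfold VN
      refine ih _ _ _ (fun c hc w hw => ?_)
      refine DPV_ClN_congr 1 B w _ _ (fun u hu v hv => ?_)
      refine h (2 * c + u) ?_ v hv
      have e : 2 ^ (a + (q.length + 1)) = 2 * 2 ^ (a + q.length) := by
        rw [← add_assoc, pow_succ, mul_comm]
      rw [e]
      omega
    | false =>
      unfold VN
      refine ih _ _ _ (fun c hc w hw => ?_)
      refine DPV_ClN_congr 0 B w _ _ (fun u hu v hv => ?_)
      refine h (2 * c + w / 2 ^ 2 ^ B) ?_ v hv
      have e : 2 ^ (a + (q.length + 1)) = 2 * 2 ^ (a + q.length) := by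
        rw [← add_assoc, pow_succ, mul_comm]
      have e2 : w / 2 ^ 2 ^ B < 2 := by
        rw [Nat.div_lt_iff_lt_mul (by positivity), ← pow_succ', add_comm]
        exact hw
      rw [e]
      omega

/-! ### the recursion -/

/-- the entry of the new table -/
def DPV_P (b : Bool) (B : ℕ) (T : List Bool) (c w : ℕ) : Prop :=
  (b = true ∧ ClN 1 B w (fun u v => T.getD ((2 * c + u) * 2 ^ B + v) false = true)) ∨
  (b = false ∧ ClN 0 B w (fun _ v => T.getD ((2 * c + w / 2 ^ 2 ^ B) * 2 ^ B + v) false = true))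

/-- the new `B` -/
def DPV_B (b : Bool) (B : ℕ) : ℕ := bif b then 2 ^ (1 + B) else 1 + 2 ^ B

theorem DPV_Bc {Y : Type} [Primcodable Y] {b : Y → Bool} {B : Y → ℕ} (hb : Computable b) (hB : Computable B) :
    Computable (fun y => DPV_B (b y) (B y)) :=
  Computable.cond hb (DPV_pow (DPV_add (Computable.const 1) hB)) (DPV_add (Computable.const 1) (DPV_pow hB))

theorem DPV_Pc {Y : Type} [Primcodable Y] {b : Y → Bool} {B : Y → ℕ} {T : Y → List Bool} {c w : Y → ℕ}
    (hb : Computable b) (hB : Computable B) (hT : Computable T) (hc : Computable c) (hw : Computable w) :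
    ComputablePred (fun y => DPV_P (b y) (B y) (T y) (c y) (w y)) := by
  have f1 : Computable (fun z : Y × ℕ × ℕ => z.1) := Computable.fst
  have f2 : Computable (fun z : Y × ℕ × ℕ => z.2.1) := Computable.fst.comp Computable.snd
  have f3 : Computable (fun z : Y × ℕ × ℕ => z.2.2) := Computable.snd.comp Computable.snd
  have gD : ∀ {i : Y × ℕ × ℕ → ℕ}, Computable i →
      ComputablePred (fun z : Y × ℕ × ℕ => (T z.1).getD (i z) false = true) := by
    intro i hi
    exact cp_eq ((Primrec.list_getD false).to_comp.comp (hT.comp f1) hi) (Computable.const true)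
  have h1 : ComputablePred (fun y => b y = true ∧
      ClN 1 (B y) (w y) (fun u v => (T y).getD ((2 * c y + u) * 2 ^ B y + v) false = true)) := by
    refine cp_and (cp_eq hb (Computable.const true)) ?_
    refine DPV_ClN (θ := fun y u v => (T y).getD ((2 * c y + u) * 2 ^ B y + v) false = true)
      (Computable.const 1) hB hw ?_
    exact gD (DPV_add (DPV_mul (DPV_add (DPV_mul (Computable.const 2) (hc.comp f1)) f2) (DPV_pow (hB.comp f1))) f3)
  have h2 : ComputablePred (fun y => b y = false ∧
      ClN 0 (B y) (w y) (fun _ v => (T y).getD ((2 * c y + w y / 2 ^ 2 ^ B y) * 2 ^ B y + v) false = true)) := by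
    refine cp_and (cp_eq hb (Computable.const false)) ?_
    refine DPV_ClN (θ := fun y _ v => (T y).getD ((2 * c y + w y / 2 ^ 2 ^ B y) * 2 ^ B y + v) false = true)
      (Computable.const 0) hB hw ?_
    exact gD (DPV_add (DPV_mul (DPV_add (DPV_mul (Computable.const 2) (hc.comp f1))
      (DPV_div (hw.comp f1) (DPV_pow (DPV_pow (hB.comp f1))))) (DPV_pow (hB.comp f1))) f3)
  exact cp_or h1 h2

theorem DPV : DPV_stmt := by
  intro X _ a K q Θ ha hK hq hΘ
  -- the Boolean functions
  obtain ⟨tΘ, htΘ, htΘ'⟩ := (R3_iff _).1 hΘ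
  have hP : ComputablePred (fun z : (X × (ℕ × (ℕ × List Bool))) × ℕ =>
      DPV_P ((q z.1.1).getD z.1.2.1 false) z.1.2.2.1 z.1.2.2.2
        (z.2 / 2 ^ DPV_B ((q z.1.1).getD z.1.2.1 false) z.1.2.2.1)
        (z.2 % 2 ^ DPV_B ((q z.1.1).getD z.1.2.1 false) z.1.2.2.1)) := by
    have e1 : Computable (fun z : (X × (ℕ × (ℕ × List Bool))) × ℕ => (q z.1.1).getD z.1.2.1 false) :=
      (Primrec.list_getD false).to_comp.comp (hq.comp (Computable.fst.comp Computable.fst))
        (Computable.fst.comp (Computable.snd.comp Computable.fst))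
    have e2 : Computable (fun z : (X × (ℕ × (ℕ × List Bool))) × ℕ => z.1.2.2.1) :=
      Computable.fst.comp (Computable.snd.comp (Computable.snd.comp Computable.fst))
    have e3 : Computable (fun z : (X × (ℕ × (ℕ × List Bool))) × ℕ => z.1.2.2.2) :=
      Computable.snd.comp (Computable.snd.comp (Computable.snd.comp Computable.fst))
    have e4 := DPV_pow (DPV_Bc e1 e2)
    exact DPV_Pc e1 e2 e3 (DPV_div Computable.snd e4) (DPV_mod Computable.snd e4)
  obtain ⟨tP, htP, htP'⟩ := (R3_iff _).1 hP
  -- the state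
  set stp : X → ℕ × (ℕ × List Bool) → ℕ × List Bool := fun x p =>
    (DPV_B ((q x).getD p.1 false) p.2.1,
      DPV_tbl (fun i => tP ((x, p), i))
        (2 ^ (a x + ((q x).length - (p.1 + 1))) * 2 ^ DPV_B ((q x).getD p.1 false) p.2.1)) with hstp
  have hstpc : Computable₂ stp := by
    have e1 : Computable (fun z : X × (ℕ × (ℕ × List Bool)) => (q z.1).getD z.2.1 false) :=
      (Primrec.list_getD false).to_comp.comp (hq.comp Computable.fst) (Computable.fst.comp Computable.snd)
    have e2 : Computable (fun z : X × (ℕ × (ℕ × List Bool)) => z.2.2.1) :=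
      Computable.fst.comp (Computable.snd.comp Computable.snd)
    have e3 := DPV_Bc e1 e2
    have e4 : Computable (fun z : X × (ℕ × (ℕ × List Bool)) => a z.1 + ((q z.1).length - (z.2.1 + 1))) :=
      DPV_add (ha.comp Computable.fst) (DPV_sub (Computable.list_length.comp (hq.comp Computable.fst))
        (DPV_add (Computable.fst.comp Computable.snd) (Computable.const 1)))
    exact Computable.pair e3 (DPV_tblc (f := tP) htP (DPV_mul (DPV_pow e4) (DPV_pow e3)))
  set S : X → ℕ → ℕ × List Bool := fun x k => Nat.rec (motive := fun _ => ℕ × List Bool)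
    (0, DPV_tbl (fun i => tΘ (x, i)) (2 ^ (a x + (q x).length))) (fun y IH => stp x (y, IH)) k with hS
  have hSc : Computable (fun x => S x (q x).length) := by
    have e0 : Computable (fun x : X => ((0 : ℕ), DPV_tbl (fun i => tΘ (x, i)) (2 ^ (a x + (q x).length)))) :=
      (Computable.const 0).pair (DPV_tblc htΘ (DPV_pow (DPV_add ha (Computable.list_length.comp hq))))
    exact Computable.nat_rec (Computable.list_length.comp hq) e0 hstpc
  have key : ∀ x k, k ≤ (q x).length → (VN (a x) (K x) (q x) 0 (fun c _ => Θ x c) ↔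
      VN (a x) (K x) ((q x).drop k) (S x k).1
        (fun c v => (S x k).2.getD (c * 2 ^ (S x k).1 + v) false = true)) := by
    intro x k
    induction k with
    | zero =>
      intro _
      rw [List.drop_zero]
      refine DPV_VN_congr (a x) (K x) (q x) 0 _ _ (fun c hc v hv => ?_)
      have hv0 : v = 0 := by
        rw [pow_zero] at hv
        omega
      subst hv0
      change Θ x c ↔ (DPV_tbl (fun i => tΘ (x, i)) (2 ^ (a x + (q x).length))).getD (c * 2 ^ 0 + 0) false = true
      rw [pow_zero, mul_one, add_zero, DPV_get _ _ _ hc]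
      exact htΘ' (x, c)
    | succ k ih =>
      intro hk
      rw [ih (by omega)]
      have hk' : k < (q x).length := by omega
      have hdrop : (q x).drop k = (q x).getD k false :: (q x).drop (k + 1) := by
        rw [List.drop_eq_getElem_cons hk', List.getD_eq_getElem _ _ hk']
      have hlen : ((q x).drop (k + 1)).length = (q x).length - (k + 1) := List.length_drop
      have hT : ∀ c < 2 ^ (a x + ((q x).drop (k + 1)).length), ∀ w < 2 ^ (S x (k + 1)).1,
          ((S x (k + 1)).2.getD (c * 2 ^ (S x (k + 1)).1 + w) false = true ↔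
            DPV_P ((q x).getD k false) (S x k).1 (S x k).2 c w) := by
        intro c hc w hw
        rw [hlen] at hc
        change (DPV_tbl (fun i => tP ((x, (k, S x k)), i))
          (2 ^ (a x + ((q x).length - (k + 1))) * 2 ^ DPV_B ((q x).getD k false) (S x k).1)).getD
            (c * 2 ^ DPV_B ((q x).getD k false) (S x k).1 + w) false = true ↔ _
        have hw' : w < 2 ^ DPV_B ((q x).getD k false) (S x k).1 := hw
        have hidx : c * 2 ^ DPV_B ((q x).getD k false) (S x k).1 + w <
            2 ^ (a x + ((q x).length - (k + 1))) * 2 ^ DPV_B ((q x).getD k false) (S x k).1 := by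
          calc c * 2 ^ DPV_B ((q x).getD k false) (S x k).1 + w <
              c * 2 ^ DPV_B ((q x).getD k false) (S x k).1 + 2 ^ DPV_B ((q x).getD k false) (S x k).1 :=
                Nat.add_lt_add_left hw' _
            _ = (c + 1) * 2 ^ DPV_B ((q x).getD k false) (S x k).1 := by ring
            _ ≤ _ := Nat.mul_le_mul_right _ hc
        rw [DPV_get _ _ _ hidx, ← htP']
        have e1 : (c * 2 ^ DPV_B ((q x).getD k false) (S x k).1 + w) / 2 ^ DPV_B ((q x).getD k false) (S x k).1 = c := by
          rw [mul_comm, Nat.mul_add_div (by positivity), Nat.div_eq_of_lt hw', add_zero]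
        have e2 : (c * 2 ^ DPV_B ((q x).getD k false) (S x k).1 + w) % 2 ^ DPV_B ((q x).getD k false) (S x k).1 = w := by
          rw [mul_comm, Nat.mul_add_mod, Nat.mod_eq_of_lt hw']
        change DPV_P _ _ _ ((c * 2 ^ DPV_B ((q x).getD k false) (S x k).1 + w) / 2 ^ DPV_B ((q x).getD k false) (S x k).1)
          ((c * 2 ^ DPV_B ((q x).getD k false) (S x k).1 + w) % 2 ^ DPV_B ((q x).getD k false) (S x k).1) ↔ _
        rw [e1, e2]
      have hB1 : (S x (k + 1)).1 = DPV_B ((q x).getD k false) (S x k).1 := rfl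
      rw [hdrop]
      rw [← DPV_VN_congr (a x) (K x) ((q x).drop (k + 1)) (S x (k + 1)).1 _ _ (fun c hc w hw => (hT c hc w hw).symm)]
      rw [hB1]
      cases hb : (q x).getD k false with
      | true =>
        have hBt : DPV_B true (S x k).1 = 2 ^ (1 + (S x k).1) := rfl
        rw [hBt]
        change VN (a x) (K x) ((q x).drop (k + 1)) (2 ^ (1 + (S x k).1)) _ ↔ _
        refine DPV_VN_congr (a x) (K x) _ _ _ _ (fun c _ w _ => ?_)
        unfold DPV_P
        simp
      | false =>
        have hBt : DPV_B false (S x k).1 = 1 + 2 ^ (S x k).1 := rfl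
        rw [hBt]
        change VN (a x) (K x) ((q x).drop (k + 1)) (1 + 2 ^ (S x k).1) _ ↔ _
        refine DPV_VN_congr (a x) (K x) _ _ _ _ (fun c _ w _ => ?_)
        unfold DPV_P
        simp
  have hfin : ComputablePred (fun x => ∃ w < 2 ^ 2 ^ (a x + (S x (q x).length).1),
      ClN (a x) (S x (q x).length).1 w (fun u v => K x u →
        (S x (q x).length).2.getD (u * 2 ^ (S x (q x).length).1 + v) false = true)) := by
    have b1 : Computable (fun x => (S x (q x).length).1) := Computable.fst.comp hSc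
    have b2 : Computable (fun x => (S x (q x).length).2) := Computable.snd.comp hSc
    refine cp_bex (p := fun x w => ClN (a x) (S x (q x).length).1 w (fun u v => K x u →
        (S x (q x).length).2.getD (u * 2 ^ (S x (q x).length).1 + v) false = true)) ?_ (DPV_pow (DPV_pow (DPV_add ha b1)))
    refine DPV_ClN (θ := fun (z : X × ℕ) u v => K z.1 u →
        (S z.1 (q z.1).length).2.getD (u * 2 ^ (S z.1 (q z.1).length).1 + v) false = true)
        (ha.comp Computable.fst) (b1.comp Computable.fst) Computable.snd ?_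
    have g0 : Computable (fun z : (X × ℕ) × ℕ × ℕ => z.1.1) := Computable.fst.comp Computable.fst
    have g1 : Computable (fun z : (X × ℕ) × ℕ × ℕ => z.2.1) := Computable.fst.comp Computable.snd
    have g2 : Computable (fun z : (X × ℕ) × ℕ × ℕ => z.2.2) := Computable.snd.comp Computable.snd
    refine DPV_imp (cp_comp (f := fun z : (X × ℕ) × ℕ × ℕ => (z.1.1, z.2.1)) (g0.pair g1) hK) ?_
    exact cp_eq ((Primrec.list_getD false).to_comp.comp (b2.comp g0)
      (DPV_add (DPV_mul g1 (DPV_pow (b1.comp g0))) g2)) (Computable.const true)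
  refine hfin.of_eq (fun x => ?_)
  rw [key x (q x).length le_rfl, List.drop_length]
  rfl

end

end PF
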